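import Mathlib
import Pool.Agent.H42.FSep

open Pool.Agent.H42.OmB Pool.Agent.H42.FSep

/-- Under `p > ω₁` there is a Tychonoff space `X` such that `C_p(X)` is `F`-separable but not
Fréchet-Urysohn. -/
theorem Pool.Agent.Results.MP_1ca5ad_gt.Cons.result (h : PBig) :
    ∃ (X : Type) (_ : TopologicalSpace X), T35Space X ∧
      FSeparable {f : X → ℝ // Continuous f} ∧
      ¬ FrechetUrysohnSpace {f : X → ℝ // Continuous f} :=
  main h
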